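import Pool.Agent.MWI.StmtsE

/-!
# Squad MWI, row KEY (helper39): substitution instances of the words of the pentagon
-/

set_option autoImplicit false

namespace Pool.Agent.MWI.H39

open Pool.Agent.Helper14_MV Pool.Agent.Helper2_MV Pool.Agent.MWF

/-! ### lists -/

theorem pl_cons (r : ℕ) (R : List ℕ) : pl (r :: R) = (3 * r + 2) :: (3 * r + 1) :: pl R := by
  unfold pl
  rw [List.flatMap_cons]
  rfl

theorem pr_cons (r : ℕ) (R : List ℕ) : pr (r :: R) = (3 * r + 1) :: (3 * r + 2) :: pr R := by
  unfold pr
  rw [List.flatMap_cons]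
  rfl

theorem pl_append (R S : List ℕ) : pl (R ++ S) = pl R ++ pl S := by
  unfold pl
  rw [List.flatMap_append]

theorem mem_pl {L : List ℕ} {i : ℕ} (h : i ∈ L) : 3 * i + 2 ∈ pl L := by
  unfold pl
  exact List.mem_flatMap.2 ⟨i, h, by simp⟩

theorem mem_pr {L : List ℕ} {i : ℕ} (h : i ∈ L) : 3 * i + 2 ∈ pr L := by
  unfold pr
  exact List.mem_flatMap.2 ⟨i, h, by simp⟩

/-- the letters `t` -/
theorem count_pl (L : List ℕ) (i : ℕ) : (pl L).count (3 * i + 1) = L.count i := by
  induction L with
  | nil => rfl
  | cons r R ih =>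
    rw [pl_cons, List.count_cons, List.count_cons, List.count_cons, ih]
    have h1 : (3 * r + 2 == 3 * i + 1) = false := by
      rw [beq_eq_false_iff_ne]
      omega
    have h2 : (3 * r + 1 == 3 * i + 1) = (r == i) := by
      by_cases h : r = i
      · subst h
        simp
      · have h3 : ¬ 3 * r + 1 = 3 * i + 1 := by omega
        rw [beq_eq_false_iff_ne.2 h, beq_eq_false_iff_ne.2 h3]
    rw [h1, h2]
    simp

theorem count_pr (L : List ℕ) (i : ℕ) : (pr L).count (3 * i + 1) = L.count i := by
  induction L with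
  | nil => rfl
  | cons r R ih =>
    rw [pr_cons, List.count_cons, List.count_cons, List.count_cons, ih]
    have h1 : (3 * r + 2 == 3 * i + 1) = false := by
      rw [beq_eq_false_iff_ne]
      omega
    have h2 : (3 * r + 1 == 3 * i + 1) = (r == i) := by
      by_cases h : r = i
      · subst h
        simp
      · have h3 : ¬ 3 * r + 1 = 3 * i + 1 := by omega
        rw [beq_eq_false_iff_ne.2 h, beq_eq_false_iff_ne.2 h3]
    rw [h1, h2]
    simp

/-- a factor of `pl R` without letters `t` has at most one letter -/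
theorem pl_factor : ∀ (R a G b : List ℕ), pl R = a ++ (G ++ b) → (∀ c ∈ G, c % 3 ≠ 1) →
    G.length ≤ 1 := by
  intro R
  induction R with
  | nil =>
    intro a G b h _
    have h0 : pl [] = [] := rfl
    rw [h0] at h
    have h1 := List.append_eq_nil_iff.1 h.symm
    have h2 := List.append_eq_nil_iff.1 h1.2
    rw [h2.1]
    simp
  | cons r R ih =>
    intro a G b h hG
    rw [pl_cons] at h
    cases a with
    | nil =>
      rw [List.nil_append] at h
      cases G with
      | nil => simp
      | cons g G =>
        rw [List.cons_append] at h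
        have h1 := (List.cons.inj h).2
        cases G with
        | nil => simp
        | cons g' G =>
          rw [List.cons_append] at h1
          have h2 := (List.cons.inj h1).1
          exact absurd (by rw [← h2]; omega) (hG g' (by simp))
    | cons x a =>
      rw [List.cons_append] at h
      have h1 := (List.cons.inj h).2
      cases a with
      | nil =>
        rw [List.nil_append] at h1
        cases G with
        | nil => simp
        | cons g G =>
          rw [List.cons_append] at h1
          have h2 := (List.cons.inj h1).1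
          exact absurd (by rw [← h2]; omega) (hG g (by simp))
      | cons x' a =>
        rw [List.cons_append] at h1
        exact ih a G b (List.cons.inj h1).2 hG

theorem pl_last (R : List ℕ) : ∀ a l, pl R = l ++ [a] → a % 3 = 1 := by
  intro a l h
  rcases List.eq_nil_or_concat R with rfl | ⟨R', r, rfl⟩
  · have h0 : pl [] = [] := rfl
    rw [h0] at h
    exact absurd h.symm (by simp)
  · rw [List.concat_eq_append, pl_append] at h
    have h1 : pl [r] = [3 * r + 2, 3 * r + 1] := rfl
    rw [h1] at h
    have h2 : (pl R' ++ [3 * r + 2]) ++ [3 * r + 1] = l ++ [a] := by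
      rw [← h]
      simp
    have h3 := List.append_inj_right' h2 rfl
    have h4 : 3 * r + 1 = a := by simpa using h3
    omega

theorem pr_head (R Y : List ℕ) (hY : ∀ a l, Y = a :: l → a % 3 = 1) :
    ∀ a l, pr R ++ Y = a :: l → a % 3 = 1 := by
  intro a l h
  cases R with
  | nil => exact hY a l h
  | cons r R =>
    rw [pr_cons, List.cons_append] at h
    have h1 := (List.cons.inj h).1
    omega

theorem count_flatMap_ge (f : ℕ → List ℕ) (x c : ℕ) (l : List ℕ) :
    l.count x * (f x).count c ≤ (l.flatMap f).count c := by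
  induction l with
  | nil => simp
  | cons a l ih =>
    rw [List.flatMap_cons, List.count_append, List.count_cons]
    by_cases h : a = x
    · subst h
      rw [if_pos (by simp), Nat.add_mul]
      omega
    · rw [if_neg (by simpa using h), Nat.add_zero]
      omega

theorem flatMap_drop (f : ℕ → List ℕ) (l : List ℕ) (h : ∀ c ∈ l, c % 3 = 0 → f c = []) :
    l.flatMap f = (l.filter nz).flatMap f := by
  induction l with
  | nil => rfl
  | cons a l ih =>
    have ih' := ih (fun c hc => h c (List.mem_cons_of_mem _ hc))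
    by_cases ha : a % 3 = 0
    · have h1 : nz a = false := by
        unfold nz
        simpa using ha
      rw [List.filter_cons_of_neg (by rw [h1]; simp), List.flatMap_cons,
        h a (List.mem_cons_self) ha, List.nil_append, ih']
    · have h1 : nz a = true := by
        unfold nz
        simpa using ha
      rw [List.filter_cons_of_pos h1, List.flatMap_cons, List.flatMap_cons, ih']

theorem flatMap_fix (f : ℕ → List ℕ) (l : List ℕ) (h : ∀ c ∈ l, f c = [c]) :
    l.flatMap f = l := by
  induction l with
  | nil => rfl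
  | cons a l ih =>
    rw [List.flatMap_cons, h a (List.mem_cons_self),
      ih (fun c hc => h c (List.mem_cons_of_mem _ hc))]
    rfl

/-! ### the main block -/

/-- the letters of the main block -/
theorem mem_mm (hm : MmfStmt) (m : ℕ) (s e : Bool) (c : ℕ) :
    c ∈ MM m s (nm e 0) (nm e 1) (nm e 2) ↔
      (c = 0 ∨ c = 3 ∨ c = 6) ∨ ∃ E ∈ idx m, c = 3 * E + 2 := by
  rw [(hm m s e).1.mem_iff]
  have h1 : c ∈ zz (idx m) ↔ ∃ E ∈ idx m, c = 3 * E + 2 := by
    unfold zz
    rw [List.mem_map]
    constructor
    · rintro ⟨E, hE, rfl⟩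
      exact ⟨E, hE, rfl⟩
    · rintro ⟨E, hE, rfl⟩
      exact ⟨E, hE, rfl⟩
  simp only [List.mem_cons, h1]
  tauto

theorem count_name (hm : MmfStmt) (m : ℕ) (s e : Bool) (c : ℕ) (hc : c = 0 ∨ c = 3 ∨ c = 6) :
    2 ≤ (MM m s (nm e 0) (nm e 1) (nm e 2)).count c := by
  rw [(hm m s e).1.count_eq]
  rcases hc with rfl | rfl | rfl <;> simp

theorem cc_fix (f : ℕ → List ℕ) {m k : ℕ} (hk : k < 7)
    (h : ∀ E < 7 * m, f (3 * E + 2) = [3 * E + 2]) : (cc m k).flatMap f = cc m k := by
  apply flatMap_fix
  intro c hc
  unfold cc zz ci at hc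
  rw [List.mem_map] at hc
  obtain ⟨E, hE, rfl⟩ := hc
  rw [List.mem_map] at hE
  obtain ⟨i, hi, rfl⟩ := hE
  rw [List.mem_range] at hi
  exact h _ (by omega)

/-- image of the main block -/
theorem mm_map (f : ℕ → List ℕ) {m : ℕ} (s : Bool) {a b c a' b' c' : ℕ} (ha : f a = [a'])
    (hb : f b = [b']) (hc : f c = [c']) (h : ∀ E < 7 * m, f (3 * E + 2) = [3 * E + 2]) :
    (MM m s a b c).flatMap f = MM m s a' b' c' := by
  unfold MM
  cases s
  · simp only [Bool.false_eq_true, if_false, List.flatMap_cons, List.flatMap_append,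
      List.flatMap_nil, ha, hb, hc, cc_fix f (show 0 < 7 by omega) h,
      cc_fix f (show 1 < 7 by omega) h, cc_fix f (show 2 < 7 by omega) h,
      cc_fix f (show 3 < 7 by omega) h, cc_fix f (show 4 < 7 by omega) h,
      cc_fix f (show 5 < 7 by omega) h, cc_fix f (show 6 < 7 by omega) h,
      List.cons_append, List.nil_append]
  · simp only [if_true, List.flatMap_cons, List.flatMap_append,
      List.flatMap_nil, ha, hb, hc, cc_fix f (show 0 < 7 by omega) h,
      cc_fix f (show 1 < 7 by omega) h, cc_fix f (show 2 < 7 by omega) h,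
      cc_fix f (show 3 < 7 by omega) h, cc_fix f (show 4 < 7 by omega) h,
      cc_fix f (show 5 < 7 by omega) h, cc_fix f (show 6 < 7 by omega) h,
      List.cons_append, List.nil_append]

theorem names (f : ℕ → List ℕ) (e e' : Bool) (h : ∀ i < 3, f (nm e i) = [nm e' i]) (e2 : Bool) :
    ∀ i < 3, f (nm e2 i) = [nm (xor e2 (xor e e')) i] := by
  have h0 := h 0 (by omega)
  have h1 := h 1 (by omega)
  have h2 := h 2 (by omega)
  intro i hi
  have h3 : i = 0 ∨ i = 1 ∨ i = 2 := by omega
  cases e <;> cases e' <;> cases e2 <;> rcases h3 with rfl | rfl | rfl <;>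
    simp_all [nm]

/-! ### the row -/

theorem key (fct : FctStmt) (hm : MmfStmt) (pjs : PjsStmt) (fcx : FcxStmt) (ost : OstStmt)
    (im1 : Im1Stmt) (im2 : Im2Stmt) (im3 : Im3Stmt) (im4 : Im4Stmt) (im5 : Im5Stmt)
    (clo : CloStmt) : KeyStmt := by
  intro β P Q m hy s e s' e' f p q hS
  obtain ⟨A, hA⟩ : ∃ A, A = p ++ (pl (stL P)).flatMap f := ⟨_, rfl⟩
  obtain ⟨B, hB⟩ : ∃ B, B = (pr (stQ Q) ++ pr (st3 Q)).flatMap f ++ q := ⟨_, rfl⟩
  have hw : ∀ s2 e2 : Bool, p ++ ((uu P Q m s2 e2).flatMap f ++ q) =
      A ++ ((MM m s2 (nm e2 0) (nm e2 1) (nm e2 2)).flatMap f ++ B) := by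
    intro s2 e2
    rw [hA, hB]
    unfold uu
    simp only [List.flatMap_append, List.append_assoc]
  simp only [hw] at hS ⊢
  obtain ⟨M, Y, hF⟩ := fct β P Q m hy s' e' _ hS
  have hperm := (pjs P Q m 0 0 (by omega)).2.2.2.2.1 hy.prm
  have hnod := (pjs P Q m 0 0 (by omega)).2.2.2.2.2.1
  have hidx := (pjs P Q m 0 0 (by omega)).2.2.2.2.2.2
  by_cases h0 : f 0 = [] ∧ f 3 = [] ∧ f 6 = []
  · -- no names
    left
    intro s2 e2
    have h1 : ∀ s e : Bool, (MM m s (nm e 0) (nm e 1) (nm e 2)).flatMap f =
        (zz (idx m)).flatMap f := by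
      intro s e
      rw [flatMap_drop f _, (hm m s e).2.1]
      intro c hc hc0
      rcases (mem_mm hm m s e c).1 hc with (h | h | h) | ⟨E, _, h⟩
      · rw [h]; exact h0.1
      · rw [h]; exact h0.2.1
      · rw [h]; exact h0.2.2
      · omega
    rw [h1, h1]
    exact RR.refl _
  · have h1 : ∃ i < 3, f (3 * i) ≠ [] := by
      by_contra hcon
      apply h0
      refine ⟨?_, ?_, ?_⟩
      · by_contra h
        exact hcon ⟨0, by omega, h⟩
      · by_contra h
        exact hcon ⟨1, by omega, h⟩
      · by_contra h
        exact hcon ⟨2, by omega, h⟩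
    obtain ⟨i0, hi0, hne0⟩ := h1
    have hname : ∀ i < 3, 3 * i = 0 ∨ 3 * i = 3 ∨ 3 * i = 6 := by
      intro i hi
      omega
    -- no letter `t` in `F`
    have ht : ∀ c ∈ (MM m s (nm e 0) (nm e 1) (nm e 2)).flatMap f, c % 3 ≠ 1 := by
      intro c hc hc1
      obtain ⟨x, hx, hcx⟩ := List.mem_flatMap.1 hc
      have hcx1 : 1 ≤ (f x).count c := List.count_pos_iff.2 hcx
      -- the letter occurs at least twice
      have h2 : 2 ≤ (A ++ ((MM m s (nm e 0) (nm e 1) (nm e 2)).flatMap f ++ B)).count c := by
        rw [List.count_append, List.count_append]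
        rcases (mem_mm hm m s e x).1 hx with hn | ⟨E, hE, hxE⟩
        · have h3 := count_name hm m s e x hn
          have h4 := count_flatMap_ge f x c (MM m s (nm e 0) (nm e 1) (nm e 2))
          have h5 : 2 * 1 ≤ (MM m s (nm e 0) (nm e 1) (nm e 2)).count x * (f x).count c :=
            Nat.mul_le_mul h3 hcx1
          omega
        · have h3 : 0 < ((MM m s (nm e 0) (nm e 1) (nm e 2)).flatMap f).count c :=
            List.count_pos_iff.2 hc
          have h4 : E ∈ stL P ++ (stQ Q ++ st3 Q) := hperm.mem_iff.2 hE
          rw [List.mem_append, List.mem_append] at h4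
          rcases h4 with h4 | h4 | h4
          · have h5 : c ∈ A := by
              rw [hA]
              exact List.mem_append_right _ (List.mem_flatMap.2 ⟨x, by rw [hxE]; exact mem_pl h4,
                hcx⟩)
            have h6 : 0 < A.count c := List.count_pos_iff.2 h5
            omega
          · have h5 : c ∈ B := by
              rw [hB]
              exact List.mem_append_left _ (List.mem_flatMap.2 ⟨x, List.mem_append_left _
                (by rw [hxE]; exact mem_pr h4), hcx⟩)
            have h6 : 0 < B.count c := List.count_pos_iff.2 h5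
            omega
          · have h5 : c ∈ B := by
              rw [hB]
              exact List.mem_append_left _ (List.mem_flatMap.2 ⟨x, List.mem_append_right _
                (by rw [hxE]; exact mem_pr h4), hcx⟩)
            have h6 : 0 < B.count c := List.count_pos_iff.2 h5
            omega
      -- but a letter `t` occurs at most once
      obtain ⟨i, rfl⟩ : ∃ i, c = 3 * i + 1 := ⟨c / 3, by omega⟩
      rw [hF.eq] at h2
      have hM0 : M.count (3 * i + 1) = 0 :=
        List.count_eq_zero.2 (fun hmem => hF.tM _ hmem (by omega))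
      have hY0 : Y.count (3 * i + 1) = (pr (st3 Q)).count (3 * i + 1) := by
        rw [← hF.fY]
        symm
        apply List.count_filter
        unfold nz
        rw [decide_eq_true_eq]
        omega
      simp only [List.count_append] at h2
      rw [hM0, hY0, count_pl, count_pr, count_pr] at h2
      have h7 : (stL P ++ (stQ Q ++ st3 Q)).count i ≤ 1 := by
        rw [hperm.count_eq]
        exact List.nodup_iff_count_le_one.1 hnod i
      rw [List.count_append, List.count_append] at h7
      omega
    have hpos : 2 ≤ ((MM m s (nm e 0) (nm e 1) (nm e 2)).flatMap f).length := by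
      obtain ⟨c, hc⟩ := List.exists_mem_of_ne_nil _ hne0
      have h2 : 1 ≤ (f (3 * i0)).count c := List.count_pos_iff.2 hc
      have h3 := count_name hm m s e (3 * i0) (hname i0 hi0)
      have h4 := count_flatMap_ge f (3 * i0) c (MM m s (nm e 0) (nm e 1) (nm e 2))
      have h5 : 2 * 1 ≤ (MM m s (nm e 0) (nm e 1) (nm e 2)).count (3 * i0) *
          (f (3 * i0)).count c := Nat.mul_le_mul h3 h2
      have h6 := List.count_le_length (a := c)
        (l := (MM m s (nm e 0) (nm e 1) (nm e 2)).flatMap f)
      omega
    have hFne : (MM m s (nm e 0) (nm e 1) (nm e 2)).flatMap f ≠ [] := by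
      intro h
      rw [h] at hpos
      simp at hpos
    have hloc := fcx (pl (stL P)) M (pr (stQ Q) ++ Y) A
      ((MM m s (nm e 0) (nm e 1) (nm e 2)).flatMap f) B hFne ht (pl_last _)
      (pr_head _ _ hF.hY) hF.eq.symm
    rcases hloc with ⟨X', hX'⟩ | ⟨a, c, hMa, hAa, hBc⟩ | ⟨Y', hY', hAY⟩
    · -- in the left places
      have := pl_factor _ _ _ _ hX' ht
      omega
    · -- in the main block
      right
      have hn : ∀ i < 3, f (3 * i) = [] ∨ ∃ j < 3, f (3 * i) = [3 * j] := by
        intro i hi
        by_cases hfi : f (3 * i) = []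
        · exact Or.inl hfi
        · right
          obtain ⟨hnm, hrl, _⟩ := (hm m s e).2.2.1 i hi
          obtain ⟨U0, U, U1, hU, _⟩ := (hm m s e).2.2.2 (rl e i) hrl
          rw [hnm] at hU
          refine im1 P Q m s' e' _ M Y hy.one hF (a ++ U0.flatMap f) (f (3 * i)) (U.flatMap f)
            (U1.flatMap f ++ c) hfi ?_
          rw [hMa, hU]
          simp only [List.flatMap_append, List.flatMap_cons, List.append_assoc]
      have hz : ∀ E < 7 * m, ∀ E', 3 * E' + 2 ∈ f (3 * E + 2) →
          f (3 * E + 2) = [3 * E' + 2] := by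
        intro E hE E' hE'
        have hEi : E ∈ idx m := (hidx E).2 hE
        have h2 : 3 * E + 2 ∈ MM m s (nm e 0) (nm e 1) (nm e 2) :=
          (mem_mm hm m s e _).2 (Or.inr ⟨E, hEi, rfl⟩)
        obtain ⟨V0, V1, hV⟩ := List.append_of_mem h2
        have hM2 : M = (a ++ V0.flatMap f) ++ (f (3 * E + 2) ++ (V1.flatMap f ++ c)) := by
          rw [hMa, hV]
          simp only [List.flatMap_append, List.flatMap_cons, List.append_assoc]
        refine im2 β P Q m hy s' e' _ M Y hS hF _ _ _ hM2 ?_ E' hE'
        have h4 : E ∈ stL P ++ (stQ Q ++ st3 Q) := hperm.mem_iff.2 hEi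
        rw [List.mem_append] at h4
        rcases h4 with h4 | h4
        · left
          obtain ⟨S0, S1, hS1⟩ := List.append_of_mem (mem_pl h4)
          refine ⟨p ++ S0.flatMap f, S1.flatMap f ++ V0.flatMap f, ?_⟩
          rw [← List.append_assoc, ← hAa, hA, hS1]
          simp only [List.flatMap_append, List.flatMap_cons, List.append_assoc]
        · right
          have h5 : 3 * E + 2 ∈ pr (stQ Q) ++ pr (st3 Q) := by
            rcases List.mem_append.1 h4 with h6 | h6
            · exact List.mem_append_left _ (mem_pr h6)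
            · exact List.mem_append_right _ (mem_pr h6)
          obtain ⟨S0, S1, hS1⟩ := List.append_of_mem h5
          refine ⟨V1.flatMap f ++ S0.flatMap f, S1.flatMap f ++ q, ?_⟩
          rw [List.append_assoc, ← hBc, hB, hS1]
          simp only [List.flatMap_append, List.flatMap_cons, List.append_assoc]
      obtain ⟨hn', hz'⟩ := im3 P Q m s' e' _ M Y hy.one hF s e f a c hMa hn hz ⟨i0, hi0, hne0⟩
      obtain ⟨ha, hc, hfix⟩ := im4 P Q m s' e' _ M Y hy.prm hF s e f a c p q hMa
        (by rw [← hAa, hA]) (by rw [← hBc, hB]) hn' hz'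
      subst ha
      subst hc
      rw [List.nil_append, List.append_nil] at hMa
      rw [List.append_nil] at hAa
      rw [List.nil_append] at hBc
      obtain ⟨hss, hnames⟩ := im5 P Q m s' e' _ M Y hy.one hF s e f hMa hn' hfix
      refine ⟨hss, ?_⟩
      have himg : ∀ s2 e2 : Bool, (MM m s2 (nm e2 0) (nm e2 1) (nm e2 2)).flatMap f =
          MM m s2 (nm (xor e2 (xor e e')) 0) (nm (xor e2 (xor e e')) 1)
            (nm (xor e2 (xor e e')) 2) := by
        intro s2 e2
        have h3 := names f e e' hnames e2
        exact mm_map f s2 (h3 0 (by omega)) (h3 1 (by omega)) (h3 2 (by omega)) hfix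
      have hxor : xor e (xor e e') = e' := by
        cases e <;> cases e' <;> rfl
      intro s2 e2
      rw [himg s e, hxor, hss, hAa, hBc] at hS
      rw [himg s2 e2, hAa, hBc]
      exact clo β P Q m hy s' e' Y hF.nY hF.fY hS s2 (xor e2 (xor e e'))
    · -- right of the main block
      left
      intro s2 e2
      have hp : ((MM m s (nm e 0) (nm e 1) (nm e 2)).flatMap f).Perm
          ((MM m s2 (nm e2 0) (nm e2 1) (nm e2 2)).flatMap f) :=
        ((hm m s e).1.trans (hm m s2 e2).1.symm).flatMap_right f
      have h2 := ost β P Q m hy s' e' _ M Y hF Y' _ _ B ht hY' hp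
      have h3 : A ++ ((MM m s2 (nm e2 0) (nm e2 1) (nm e2 2)).flatMap f ++ B) =
          pl (stL P) ++ (M ++ (Y' ++ ((MM m s2 (nm e2 0) (nm e2 1) (nm e2 2)).flatMap f ++ B))) := by
        rw [hAY]
        simp only [List.append_assoc]
      rw [h3]
      exact h2

end Pool.Agent.MWI.H39
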